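import Pool.Agent.P.MP_3540e7_al.T5.All

namespace Pool.Agent.Results.MP_3540e7_al.LocPolyRank

/-- A soluble group in which centralizers of finitely generated subgroups are finitely generated
and which is (locally polycyclic)-by-(finite torsion-free rank) is polycyclic. -/
theorem result (G : Type) [Group G] [Group.IsSolvable G]
    (hC : ∀ H : Subgroup G, H.FG → (Subgroup.centralizer (H : Set G)).FG)
    (L : Subgroup G) [L.Normal]
    (hL : ∀ H : Subgroup G, H ≤ L → H.FG → ∀ K : Subgroup G, K ≤ H → K.FG)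
    (hQ : ∀ k : ℕ, Module.rank ℤ (Additive (Abelianization (derivedSeries (G ⧸ L) k))) <
      Cardinal.aleph0) :
    ∀ K : Subgroup G, K.FG := by
  have h := Pool.Agent.P.MP_3540e7_al.T5.q_MAIN G L
    (fun F hF => by
      have := hC (Subgroup.closure F) ((Subgroup.fg_iff _).2 ⟨F, rfl, hF⟩)
      rwa [Subgroup.centralizer_closure] at this)
    (fun F hF hFL => Pool.Agent.P.MP_3540e7_al.noeth_iff.2 fun K hK =>
      hL _ ((Subgroup.closure_le _).2 hFL) ((Subgroup.fg_iff _).2 ⟨F, rfl, hF⟩) K hK) hQ
  exact fun K => Pool.Agent.P.MP_3540e7_al.noeth_iff.1 h K le_top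

end Pool.Agent.Results.MP_3540e7_al.LocPolyRank
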