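import Pool.Agent.P.MP_3540e7_al.T7.All

open scoped commutatorElement

namespace Pool.Agent.Results.MP_3540e7_al.NilPolySub

/-- A soluble group in which centralizers of finitely generated subgroups are finitely generated,
with a normal subgroup `N` such that `G / N` is polycyclic and all polycyclic subgroups of
`[N, N]` are nilpotent, is polycyclic. -/
theorem result (G : Type) [Group G] [Group.IsSolvable G]
    (hC : ∀ H : Subgroup G, H.FG → (Subgroup.centralizer (H : Set G)).FG)
    (N : Subgroup G) [N.Normal]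
    (hN : ∀ K : Subgroup G, K ≤ ⁅N, N⁆ → (∀ K' : Subgroup G, K' ≤ K → K'.FG) →
      Group.IsNilpotent K)
    (hQ : ∀ K : Subgroup (G ⧸ N), K.FG) :
    ∀ K : Subgroup G, K.FG := by
  have := Pool.Agent.P.MP_3540e7_al.T7.q_MAIN G N
    (fun F hF => by
      rw [← Subgroup.centralizer_closure]
      exact hC _ ((Subgroup.fg_iff _).2 ⟨F, rfl, hF⟩))
    (fun K hK h => hN K hK (Pool.Agent.P.MP_3540e7_al.noeth_iff.1 h))
    ((Pool.Agent.P.MP_3540e7_al.rn_iff_map le_top).2
      (Pool.Agent.P.MP_3540e7_al.noeth_iff.2 fun K _ => hQ K))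
  exact fun K => Pool.Agent.P.MP_3540e7_al.noeth_iff.1 this K le_top

end Pool.Agent.Results.MP_3540e7_al.NilPolySub
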